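import Pool.Agent.MP_1246c0_nt.H12.SpecN

/-! The bilinear estimate for the symbols of pairs of primes. -/

namespace Pool.Agent.MP_1246c0_nt.H12

open NumberField Finset Filter Topology

namespace BIL

theorem sg_abs (x : F2) : |sg x| ≤ 1 := by
  unfold sg
  split_ifs <;> simp

theorem sg_add (x y : F2) : sg (x + y) = sg x * sg y := by
  have h : ∀ z : F2, z = 0 ∨ z = 1 := by decide
  have h2 : (1 : F2) + 1 = 0 := by decide
  rcases h x with rfl | rfl <;> rcases h y with rfl | rfl <;> simp [sg, h2]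

theorem abs_mul_le {a b : ℝ} (ha : |a| ≤ 1) (hb : |b| ≤ 1) : |a * b| ≤ 1 := by
  rw [abs_mul]
  exact mul_le_one₀ ha (abs_nonneg _) hb

theorem log_le {a b : ℕ} (h : a ≤ b) : Real.log a ≤ Real.log b := by
  rcases Nat.eq_zero_or_pos a with rfl | h0
  · simpa using Real.log_natCast_nonneg b
  · exact Real.log_le_log (Nat.cast_pos.2 h0) (Nat.cast_le.2 h)

theorem one_sum {f : ℕ → ℝ} {c : ℝ} (h : ∀ p, |f p| ≤ c) (h0 : f 0 = 0) {M : ℕ}
    {A : Finset ℕ} (hA : A ⊆ range (M + 1)) : |∑ p ∈ A, f p| ≤ M * c := by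
  refine (abs_sum_le_sum_abs _ _).trans ((sum_le_sum_of_subset_of_nonneg hA
    fun _ _ _ => abs_nonneg _).trans ?_)
  rw [sum_range_succ', h0, abs_zero, add_zero]
  exact (sum_le_card_nsmul _ _ c fun p _ => h _).trans (by simp)

theorem triv (hH : SHYP) {f : ℕ → ℕ → ℝ} {Y : ℕ} (hY : 1 ≤ Y) (h1 : ∀ p p', |f p p'| ≤ 1)
    (h2 : ∀ p p', f p p' ≠ 0 → Y < p ∧ Y < p') (T : ℕ) :
    |∑ p ∈ range (T + 1), ∑ p' ∈ range (T + 1), if p * p' ≤ T then f p p' else 0| ≤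
      100 * T * (Real.log T + 2) := by
  have := hH f Y T 1 h1 h2 (by simpa using hY) fun M _ M' _ A hA => by
    refine (one_sum (c := M' * 1) (fun p => one_sum (h1 p)
      (not_not.1 fun e => by have := (h2 _ _ e).2; omega) Subset.rfl)
      (sum_eq_zero fun p _ => not_not.1 fun e => by have := (h2 _ _ e).1; omega) hA).trans
      (le_of_eq (by ring))
  simpa using this

theorem diag {f : ℕ → ℝ} {Y : ℕ} (hY : 1 ≤ Y) (h1 : ∀ p, |f p| ≤ 1) (h2 : ∀ p, f p ≠ 0 → Y < p)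
    (T : ℕ) : |∑ p ∈ range (T + 1), if p * p ≤ T then f p else 0| ≤ T / Y := by
  classical
  rw [← sum_filter_ne_zero]
  refine (one_sum (M := T / Y) (c := 1) (fun p => ?_) ?_ fun p hp => ?_).trans ?_
  · split_ifs
    · exact h1 p
    · simp
  · have : f 0 = 0 := not_not.1 fun e => by have := h2 _ e; omega
    simp [this]
  · obtain ⟨h3, h4⟩ := ite_ne_right_iff.1 (mem_filter.1 hp).2
    exact mem_range.2 (Nat.lt_succ_of_le ((Nat.le_div_iff_mul_le hY).2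
      ((Nat.mul_le_mul_left _ (h2 p h4).le).trans h3)))
  · rw [mul_one]
    exact Nat.cast_div_le

theorem split (f : ℕ → ℕ → ℝ) (T : ℕ) :
    (∑ p ∈ range (T + 1), ∑ p' ∈ range (T + 1), if p * p' ≤ T ∧ p ≠ p' then f p p' else 0) =
      (∑ p ∈ range (T + 1), ∑ p' ∈ range (T + 1), if p * p' ≤ T then f p p' else 0) -
        ∑ p ∈ range (T + 1), if p * p ≤ T then f p p else 0 := by
  rw [← sum_sub_distrib]
  refine sum_congr rfl fun p hp => ?_
  rw [← add_sum_erase _ _ hp, ← add_sum_erase _ (fun p' => if p * p' ≤ T then f p p' else 0) hp,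
    if_neg (fun h => h.2 rfl), zero_add, add_sub_cancel_left]
  exact sum_congr rfl fun p' hp' => by simp [(ne_of_mem_erase hp').symm]

theorem core (hR : SRECT) (hH : SHYP) {R : Type} [CommRing R] {N : ℕ} {e : Fin N → R} {κ : ℕ}
    {nm : R →* ℤ} {α : ℕ → R} {χ : ℕ → R → ℝ} {ok : ℕ → Prop} {Y T₀ : ℕ} {B : ℝ}
    (τ : ℕ → Fin T₀) {w : Fin T₀ → ℕ → ℝ} (hw : ∀ c p, |w c p| ≤ 1) (hN : 1 ≤ N) (hY : 1 ≤ Y)
    (kit : Kit e κ)
    (hs : ∀ p, ok p → Y < p → p.Prime ∧ (p : ℤ) ∣ nm (α p) ∧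
      ∀ q, ok q → Y < q → (q : ℤ) ∣ nm (α p) → q = p)
    (hb : ∀ p, ok p → ∃ L, α p ∈ Box e L ∧ L ^ N ≤ p) (hχ : ∀ p, ok p → Chr e (χ p) p)
    (hB : 1 ≤ B) (hB' : T₀ * (100 * κ : ℝ) ^ N ≤ B) {u v : ℕ → ℝ} (hu : ∀ p, |u p| ≤ 1)
    (hv : ∀ p, |v p| ≤ 1) (hu' : ∀ p, u p ≠ 0 → ok p ∧ Y < p) (hv' : ∀ p, v p ≠ 0 → ok p ∧ Y < p)
    (T : ℕ) :
    |∑ p ∈ range (T + 1), ∑ p' ∈ range (T + 1),
      if p * p' ≤ T ∧ p ≠ p' then u p * (v p' * w (τ p) p') * χ p' (α p) else 0| ≤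
      101 * B * (Real.log T + 2) ^ 2 / (Y : ℝ) ^ (1 / (16 * N) : ℝ) * T := by
  classical
  have hY' : (1 : ℝ) ≤ Y := by exact_mod_cast hY
  have hN' : (1 : ℝ) ≤ N := by exact_mod_cast hN
  have y1 : 1 ≤ (Y : ℝ) ^ (1 / (16 * N) : ℝ) := Real.one_le_rpow hY' (by positivity)
  have y2 : (Y : ℝ) ^ (1 / (16 * N) : ℝ) ≤ Y :=
    Real.rpow_le_self_of_one_le hY' ((div_le_one (by positivity)).2 (by linarith))
  have y3 : (Y : ℝ) ^ (1 / (8 * N) : ℝ) = ((Y : ℝ) ^ (1 / (16 * N) : ℝ)) ^ 2 := by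
    rw [← Real.rpow_natCast, ← Real.rpow_mul (by positivity)]
    congr 1
    push_cast
    field_simp
    norm_num
  have l1 : 1 ≤ Real.log T + 2 := by linarith [Real.log_natCast_nonneg T]
  have f1 : ∀ p p', |u p * (v p' * w (τ p) p') * χ p' (α p)| ≤ 1 := fun p p' => by
    by_cases h : v p' = 0
    · simp [h]
    · exact abs_mul_le (abs_mul_le (hu p) (abs_mul_le (hv p') (hw _ _)))
        ((hχ p' (hv' p' h).1).abs _)
  have f2 : ∀ p p', u p * (v p' * w (τ p) p') * χ p' (α p) ≠ 0 → Y < p ∧ Y < p' := fun p p' h =>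
    ⟨(hu' p fun e => h (by simp [e])).2, (hv' p' fun e => h (by simp [e])).2⟩
  have k1 := hH _ Y T (B * (Real.log T + 2) / (Y : ℝ) ^ (1 / (16 * N) : ℝ)) f1 f2 (by
    rw [div_mul_eq_mul_div, le_div_iff₀ (by positivity), one_mul]
    exact y2.trans (le_mul_of_one_le_left (by positivity) (one_le_mul_of_one_le_of_one_le hB l1)))
    fun M _ M' hM' A hA => by
      have e1 : ∑ p ∈ A, ∑ p' ∈ range (M' + 1), u p * (v p' * w (τ p) p') * χ p' (α p) =
          ∑ c, ∑ p ∈ A.filter fun p => ok p ∧ Y < p,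
            ∑ p' ∈ (range (M' + 1)).filter fun p => ok p ∧ Y < p,
              (if τ p = c then u p else 0) * (v p' * w c p') * χ p' (α p) := by
        rw [sum_comm (s := univ), ← sum_filter_of_ne (p := fun p => ok p ∧ Y < p)
          fun p _ h => hu' p fun e => h (by simp [e])]
        refine sum_congr rfl fun p _ => ?_
        rw [sum_eq_single (τ p) (fun c _ h => by simp [h.symm]) (by simp), if_pos rfl,
          sum_filter_of_ne fun p' _ h => hv' p' fun e => h (by simp [e])]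
      rw [e1]
      refine (abs_sum_le_sum_abs _ _).trans ((sum_le_card_nsmul _ _ _ fun c _ =>
        hR R N e κ nm α χ _ _ (fun p => if τ p = c then u p else 0) (fun p' => v p' * w c p') M M' Y
          hN hY kit (fun p hp => ?_) (fun p hp => ?_) (fun p hp => ?_) (fun p => ?_)
          fun p => abs_mul_le (hv p) (hw c p)).trans ?_)
      · obtain ⟨a1, a2⟩ := (mem_filter.1 hp).2
        exact ⟨(hs p a1 a2).1, (hs p a1 a2).2.1, fun q hq =>
          (hs p a1 a2).2.2 q (mem_filter.1 hq).2.1 (mem_filter.1 hq).2.2⟩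
      · exact ⟨(mem_filter.1 hp).2.2, Nat.le_of_lt_succ (mem_range.1 (hA (mem_filter.1 hp).1)),
          hb p (mem_filter.1 hp).2.1⟩
      · obtain ⟨a0, a1, a2⟩ := mem_filter.1 hp
        exact ⟨(hs p a1 a2).1, a2, Nat.le_of_lt_succ (mem_range.1 a0), hχ p a1⟩
      · split_ifs
        · exact hu p
        · simp
      · rw [card_univ, Fintype.card_fin, nsmul_eq_mul, y3, div_pow, ← mul_assoc, ← mul_assoc,
          ← mul_div_assoc, ← mul_assoc]
        have a1 : 0 ≤ Real.log M' + 2 := by linarith [Real.log_natCast_nonneg M']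
        have a2 : T₀ * (100 * κ : ℝ) ^ N * (Real.log M' + 2) ≤ B * (Real.log T + 2) :=
          mul_le_mul hB' (by linarith [log_le hM']) a1 (by linarith)
        have a3 := one_le_mul_of_one_le_of_one_le hB l1
        gcongr
        nlinarith
  have k2 := diag hY (fun p => f1 p p) (fun p h => (f2 p p h).1) T
  rw [split]
  refine (abs_sub _ _).trans ((add_le_add k1 k2).trans ?_)
  have a1 : (T : ℝ) / Y ≤ B * (Real.log T + 2) ^ 2 * T / (Y : ℝ) ^ (1 / (16 * N) : ℝ) :=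
    div_le_div₀ (by positivity) (le_mul_of_one_le_left (by positivity)
      (one_le_mul_of_one_le_of_one_le hB (one_le_pow₀ l1))) (by positivity) y2
  refine (add_le_add le_rfl a1).trans (le_of_eq ?_)
  ring

theorem nums {N : ℕ} (hN : 1 ≤ N) : 2 ^ 7 * 2 ^ (3 * N ^ 2) ≤ 2 ^ (40 * N ^ 5) ∧
    2 ^ N * (2 ^ (3 * N ^ 2)) ^ (N ^ 2 + 1) * (2 ^ 7 * 2 ^ (10 * N ^ 2)) ^ N ≤ 2 ^ (24 * N ^ 5) ∧
    2 ^ 7 * 2 ^ (24 * N ^ 5) ≤ 2 ^ (40 * N ^ 5) := by
  have p0 : 1 ≤ N ^ 5 := Nat.one_le_pow _ _ hN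
  have p1 := Nat.pow_le_pow_right hN (show 1 ≤ 5 by omega)
  have p2 := Nat.pow_le_pow_right hN (show 2 ≤ 5 by omega)
  have p3 := Nat.pow_le_pow_right hN (show 3 ≤ 5 by omega)
  have p4 := Nat.pow_le_pow_right hN (show 4 ≤ 5 by omega)
  refine ⟨?_, ?_, ?_⟩
  · rw [← pow_add]; exact Nat.pow_le_pow_right two_pos (by omega)
  · rw [← pow_add, ← pow_mul, ← pow_mul, ← pow_add, ← pow_add,
      show N + 3 * N ^ 2 * (N ^ 2 + 1) + (7 + 10 * N ^ 2) * N =
        8 * N ^ 1 + 3 * N ^ 2 + 10 * N ^ 3 + 3 * N ^ 4 by ring]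
    exact Nat.pow_le_pow_right two_pos (by omega)
  · rw [← pow_add]; exact Nat.pow_le_pow_right two_pos (by omega)

end BIL

open BIL

theorem rowBIL : OfBIL := by
  intro hR hH h1 h2
  refine ⟨40, fun n D Y T hY s hs u v hu hv hu' hv' T' hT => ?_⟩
  obtain ⟨e, κ, α, kit, hκ, ha, hd, hχ⟩ := h1 n D
  obtain ⟨χ, hχ⟩ := hχ s hs
  obtain ⟨T₀, τ, t, hT₀, ht⟩ := h2 n D (2 ^ (3 * (2 ^ n) ^ 2)) α Nat.one_le_two_pow fun p hp =>
    ⟨(ha p hp).1, (ha p hp).2.1, by exact_mod_cast (ha p hp).2.2.1⟩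
  have hN : 1 ≤ 2 ^ n := Nat.one_le_two_pow
  have hY' : (1 : ℝ) ≤ Y := by exact_mod_cast hY
  have l0 := Real.log_natCast_nonneg T'
  have l1 := log_le hT
  have y0 : 0 < (Y : ℝ) ^ (1 / (16 * (2 ^ n : ℕ)) : ℝ) := by positivity
  rcases lt_or_ge Y (2 ^ (3 * (2 ^ n) ^ 2)) with hK | hK
  · have k := triv hH (f := fun p p' => if p ≠ p' then u p * v p' * sg (∑ k ∈ s, D.rr p p' k) else 0)
      hY (fun p p' => by
        split_ifs
        · exact abs_mul_le (abs_mul_le (hu p) (hv p')) (sg_abs _)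
        · simp)
      (fun p p' h => ⟨(hu' p fun e => h (by simp [e])).2, (hv' p' fun e => h (by simp [e])).2⟩) T'
    simp only [ite_and]
    refine k.trans ?_
    have y2 : (Y : ℝ) ^ (1 / (16 * (2 ^ n : ℕ)) : ℝ) ≤ Y := by
      have : (1 : ℝ) ≤ (2 ^ n : ℕ) := by exact_mod_cast hN
      exact Real.rpow_le_self_of_one_le hY' ((div_le_one (by positivity)).2 (by linarith))
    have a1 : 100 * Y ≤ 2 ^ (40 * (2 ^ n) ^ 5) :=
      (Nat.mul_le_mul (by norm_num) hK.le).trans (nums hN).1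
    have a2 : (100 * Y : ℝ) ≤ 2 ^ (40 * (2 ^ n) ^ 5) := by exact_mod_cast a1
    rw [dl, mul_right_comm]
    refine mul_le_mul_of_nonneg_right ((le_div_iff₀ y0).2 ?_) (by positivity)
    rw [mul_right_comm]
    exact mul_le_mul (by linarith) (by nlinarith) (by linarith) (by positivity)
  · have hs' : ∀ p, Gd n p → Y < p → p.Prime ∧ (p : ℤ) ∣ Algebra.norm ℤ (α p) ∧
        ∀ q, Gd n q → Y < q → (q : ℤ) ∣ Algebra.norm ℤ (α p) → q = p := fun p hp _ => by
      have a1 := hd p 0 (α p) hp (by simpa using (ha p hp).1)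
      refine ⟨hp.1, a1, fun q hq hq' a2 => not_not.1 fun hne => ?_⟩
      have a3 := Int.le_of_dvd (abs_pos.2 (Algebra.norm_ne_zero_iff.2 (ha p hp).2.1))
        ((dvd_abs _ _).2 ((Nat.isCoprime_iff_coprime.2
          ((Nat.coprime_primes hq.1 hp.1).2 hne)).mul_dvd a2 a1))
      have a4 : q * p ≤ 2 ^ (3 * (2 ^ n) ^ 2) * p := by exact_mod_cast a3.trans (ha p hp).2.2.1
      have := Nat.le_of_mul_le_mul_right a4 hp.1.pos
      omega
    have a1 : T₀ * (100 * κ) ^ 2 ^ n ≤ 2 ^ (24 * (2 ^ n) ^ 5) :=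
      (Nat.mul_le_mul hT₀ (Nat.pow_le_pow_left (Nat.mul_le_mul (by norm_num) hκ) _)).trans
        (nums hN).2.1
    have k := core hR hH (B := 2 ^ (24 * (2 ^ n) ^ 5)) τ (w := fun c p => sg (∑ k ∈ s, t c p k))
      (fun _ _ => sg_abs _) hN hY kit hs' (fun p hp => (ha p hp).2.2.2) (fun p hp => (hχ p hp).1)
      (one_le_pow₀ one_le_two) (by exact_mod_cast a1) hu hv hu' hv' T'
    have e1 : ∀ p p', (if p * p' ≤ T' ∧ p ≠ p' then u p * v p' * sg (∑ k ∈ s, D.rr p p' k) else 0) =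
        if p * p' ≤ T' ∧ p ≠ p' then u p * (v p' * sg (∑ k ∈ s, t (τ p) p' k)) * χ p' (α p)
          else 0 := fun p p' => by
      split_ifs with h
      · by_cases b1 : u p = 0
        · simp [b1]
        by_cases b2 : v p' = 0
        · simp [b2]
        obtain ⟨c1, c2⟩ := hu' p b1
        obtain ⟨c3, c4⟩ := hv' p' b2
        rw [ht p p' c1 c3 (hK.trans_lt c4) h.2, (hχ p' c3).2 _ fun k hk =>
          h.2 ((hs' p c1 c2).2.2 p' c3 c4 (hd p' k _ c3 hk)).symm]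
        simp only [Pi.add_apply, sum_add_distrib, sg_add]
        ring
      · rfl
    simp only [e1]
    refine k.trans (mul_le_mul_of_nonneg_right ?_ (by positivity))
    have a2 : 101 * 2 ^ (24 * (2 ^ n) ^ 5) ≤ 2 ^ (40 * (2 ^ n) ^ 5) :=
      (Nat.mul_le_mul_right _ (by norm_num)).trans (nums hN).2.2
    have a3 : (101 * 2 ^ (24 * (2 ^ n) ^ 5) : ℝ) ≤ 2 ^ (40 * (2 ^ n) ^ 5) := by exact_mod_cast a2
    rw [dl]
    gcongr

end Pool.Agent.MP_1246c0_nt.H12
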