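import Pool.Agent.MP_1246c0_nt.H25.SpecN

/-! Intermediate levels. -/

namespace Pool.Agent.MP_1246c0_nt.H25

open Finset Matrix Filter Function Pool.Agent.MP_db5b97_nt.H85
open Pool.Agent.MP_1246c0_nt.H12

namespace E3

theorem ind0 (p : Prop) : 0 ≤ ind p := by unfold ind; split_ifs <;> norm_num

theorem ind1 {p : Prop} (h : p) : ind p = 1 := if_pos h

theorem ind_or {p q r : Prop} (h : p → q ∨ r) : ind p ≤ ind q + ind r := by
  by_cases c : p
  · have := ind0 q
    have := ind0 r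
    rcases h c with e | e <;> rw [ind1 c, ind1 e] <;> linarith
  · exact (if_neg c).trans_le (add_nonneg (ind0 q) (ind0 r))

theorem ext {α : Type} {Sg : Finset ℕ} {m : ℕ} {p p' : Fin m → ℕ} (f : ℕ → α)
    (h : ∀ i, f (p i) = f (p' i)) : (fun i => f (prs Sg p i)) = fun i => f (prs Sg p' i) :=
  funext fun i => by
    rcases i with i | i
    · rfl
    · exact h i

theorem mx0 (h2 : SSY2) (hL : SLAM) {ι : Type} [Fintype ι] [DecidableEq ι] (D : ∀ n, Dat n)
    (pr : ι → ℕ) (P : ℕ) (h : ∀ i, Gd 0 (pr i)) : MX D 0 (1 : F2) pr P = Sm0 pr P :=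
  (h2.aus ι F2 D i2 i2 1 0 pr P hL.zero.1 h).1

end E3

open E3 in
theorem rowE3 : OfE3 := by
  intro hA hL hQ hP _ h2 hR hO h0 hG ε j1 hε
  obtain ⟨C, j2, R1, R2⟩ := hR
  obtain ⟨A, j0, hj, hA3, hs⟩ := hO (max C 0) (ε / 2) (max j1 j2) (by positivity)
  refine ⟨A, j0, le_of_max_le_left hj, fun S π hS hπ => ?_⟩
  subst hπ
  filter_upwards [hG S π hS, hP π.j0 (8 / ε)] with X G ⟨r1, _, _, _, r2, _⟩
  have c0 : 0 ≤ max C 0 := le_max_right _ _
  have c1 : C ≤ max C 0 := le_max_left _ _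
  have r3 : (1 : ℝ) ≤ ll X := (one_le_pow₀ one_le_two).trans r2
  have key : ∀ a ∈ Ioc A (tpX X π.j0 - 2),
      GS X (fun Sg m i1 p P => ind (NX S π X Sg m i1 p P ∧ Hi S (prs Sg p) P a)) ≤
      (max C 0 / 2 ^ 2 ^ nn (tpX X π.j0) π.j0 a +
        2 * (max C 0 * (9 / 10) ^ 2 ^ nn (tpX X π.j0) π.j0 a)) * X + 2 * (X / Real.exp (ll X)) := by
    intro a ha
    rw [mem_Ioc] at ha
    have a2 : a + 2 ≤ tpX X π.j0 := by omega
    have n3 : nn (tpX X π.j0) π.j0 a + 3 ≤ a := by unfold nn; omega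
    have n5 : nn (tpX X π.j0) π.j0 a * 5 ≤ tpX X π.j0 + π.j0 + 5 := by unfold nn jj; omega
    have R1' := fun ι [Fintype ι] [DecidableEq ι] lv e B M h h' => R1 ι lv e B M (tpX X π.j0) π.j0 a h h'
      (le_of_max_le_right hj) (by omega) a2
    obtain ⟨Λ, _, _, st, au, g, hg⟩ := hL.ex (nn (tpX X π.j0) π.j0 a)
    have R2' := fun ι [Fintype ι] [DecidableEq ι] lv e B M c a' b h => R2 Λ ι st au (g - 1) lv e B M c (tpX X π.j0) π.j0 a
      a' b hg.lr h (le_of_max_le_right hj) a2
    generalize nn (tpX X π.j0) π.j0 a = n at *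
    have n6 : ((2 : ℝ) ^ n) ^ 5 ≤ ll X := by
      rw [← pow_mul]
      exact (pow_le_pow_right₀ one_le_two n5).trans r2
    have g1 := G 0 F2 Unit i2 i2 1 (fun _ => ())
      (fun Sg m _ p M => BadL (fun i => lev (prs Sg p i)) (fun i => eps (prs Sg p i)) M a (2 ^ n + 1))
      (max C 0 / 2 ^ 2 ^ n) hL.zero.1 (by simpa using r3)
      (by simpa using sq_nonneg (ll X)) (by positivity)
      (fun Sg m _ p p' M h b => by
        rwa [← ext lev fun i => (h i).1, ← ext eps fun i => (h i).2.1])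
      fun Sg m i1 p P v x => by
        rw [mx0 h2 hL _ _ _ v.lb.odd]
        exact (R1' _ _ _ _ _ x.nc fun l _ l' _ => hQ.sym _ _ P v.lb.inj v.lb.odd l (mem_univ _)
          l' (mem_univ _)).trans (by gcongr)
    have := Fintype.ofFinite Λ
    have cd : (Fintype.card Λ : ℝ) ≤ Real.exp (ll X ^ 2) := by
      rw [← Fintype.card_of_bijective hg.bij, Fintype.card_fun, ZMod.card, ZMod.card]
      push_cast
      refine (pow_le_pow_left₀ zero_le_two (show (2 : ℝ) ≤ Real.exp 1 by
        linarith [Real.add_one_le_exp 1]) _).trans ?_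
      rw [← Real.exp_nat_mul, Real.exp_le_exp]
      push_cast
      have := le_self_pow₀ (one_le_pow₀ (n := n) (one_le_two (α := ℝ))) (show 5 ≠ 0 by norm_num)
      nlinarith
    have g2 := G n Λ Λ st au g (cX S.D n g)
      (fun Sg m _ p M => BadN au (g - 1) (2 ^ n) (2 ^ n) (fun i => lev (prs Sg p i))
          (fun i => cX S.D n g (prs Sg p i)) M a false ∨
        BadN au (g - 1) (2 ^ n) (2 ^ n) (fun i => lev (prs Sg p i))
          (fun i => cX S.D n g (prs Sg p i)) M (a - 1) true)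
      (2 * (max C 0 * (9 / 10) ^ 2 ^ n)) hg n6 cd (by positivity)
      (fun Sg m _ p p' M h b => by
        rwa [← ext lev fun i => (h i).1, ← ext (cX S.D n g) fun i => (h i).2.2])
      fun Sg m i1 p P v x => by
        obtain ⟨u1, u2⟩ := h2.aus _ Λ S.D st au g n (prs Sg p) P hg v.lb.odd
        have sy : ∀ a', n ≤ a' → Sym st au (MX S.D n g (prs Sg p) P)
            (fun i => cX S.D n g (prs Sg p i)) ((BB Sg m).filter fun l => a' ≤ lev (prs Sg p l)) :=
          fun a' h l hl l' hl' => by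
            have e := h2.sym _ Λ S st au g n (prs Sg p) P hS hg v.lb.inj v.lb.odd l (mem_univ _)
              l' (mem_univ _)
            rw [min_eq_right (le_min (h.trans (mem_filter.1 hl).2) (h.trans (mem_filter.1 hl').2)),
              hg.lr.nil, zero_dvd_iff, sub_eq_zero] at e
            exact e
        have e1 := R2' _ _ _ _ _ _ a false (u1 ▸ x.nc) (by simp) (sy a (by omega)) u2
        have e2 := R2' _ _ _ _ _ _ (a - 1) true (u1 ▸ x.nc) (by simp; omega)
          (sy _ (by omega)) u2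
        refine (hA.mono _ _ _ _ fun H _ => ind_or id).trans ?_
        rw [hA.add, two_mul]
        exact add_le_add (e1.trans (by gcongr)) (e2.trans (by gcongr))
    refine (h0.mono X _ _ fun Sg m i1 p P v => ind_or ?_).trans
      ((h0.add X _ _).trans_le ((add_le_add g1 g2).trans_eq (by ring)))
    rintro ⟨x, hi⟩
    by_cases b : BadL (fun i => lev (prs Sg p i)) (fun i => eps (prs Sg p i)) (Sm0 (prs Sg p) P) a
      (2 ^ n + 1)
    · refine .inl ⟨x, fun M' c => ?_⟩
      have : M' = Sm0 (prs Sg p) P := by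
        rw [← mx0 h2 hL S.D _ _ v.lb.odd]
        ext i j
        have := c i j
        rwa [sub_self, zero_pow (by positivity), zero_dvd_iff, sub_eq_zero] at this
      rwa [this]
    · exact .inr ⟨x, fun M' c => ((hi n Λ st au g M' hg n3 c).1 _).resolve_left b⟩
  refine (h0.mono X _ (fun Sg m i1 p P => ∑ a ∈ Ioc A (tpX X π.j0 - 2),
    ind (NX S π X Sg m i1 p P ∧ Hi S (prs Sg p) P a)) fun Sg m i1 p P _ => ?_).trans
    ((h0.sum _ _ X _).trans_le ((sum_le_sum key).trans ?_))
  · by_cases c : NX S π X Sg m i1 p P ∧ ∃ a, A < a ∧ a + 2 ≤ tpX X π.j0 ∧ Hi S (prs Sg p) P a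
    · obtain ⟨a, a1, a2, a3⟩ := c.2
      rw [ind1 c, ← ind1 (And.intro c.1 a3)]
      exact single_le_sum (f := fun a => ind (NX S π X Sg m i1 p P ∧ Hi S (prs Sg p) P a))
        (fun _ _ => ind0 _) (mem_Ioc.2 ⟨a1, by omega⟩)
    · exact (if_neg c).trans_le (sum_nonneg fun _ _ => ind0 _)
  · rw [sum_add_distrib, ← sum_mul, sum_const, nsmul_eq_mul]
    have s1 := (sum_le_sum_of_subset_of_nonneg (Ioc_subset_Ioc_right (Nat.sub_le _ 2))
      fun _ _ _ => by positivity).trans (hs (tpX X π.j0))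
    have s2 : ((Ioc A (tpX X π.j0 - 2)).card : ℝ) ≤ ll X := by
      refine le_trans ?_ r2
      have := (Nat.lt_two_pow_self (n := tpX X π.j0 + π.j0 + 5)).le
      rw [Nat.card_Ioc]
      exact_mod_cast le_trans (by omega) this
    have s3 : ll X * 2 / Real.exp (ll X) ≤ ε / 2 := by
      have := Real.quadratic_le_exp_of_nonneg (zero_le_one.trans r3)
      rw [div_le_iff₀ hε] at r1
      rw [div_le_iff₀ (Real.exp_pos _)]
      nlinarith
    calc _ ≤ ε / 2 * X + ll X * (2 * (X / Real.exp (ll X))) := by gcongr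
      _ = ε / 2 * X + ll X * 2 / Real.exp (ll X) * X := by ring
      _ ≤ ε / 2 * X + ε / 2 * X := by gcongr
      _ = _ := by ring

end Pool.Agent.MP_1246c0_nt.H25
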