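import Pool.Agent.MP_1246c0_nt.H25.SpecU

/-! The size of the parameters. -/

namespace Pool.Agent.MP_1246c0_nt.H25

open Filter Real Pool.Agent.MP_1246c0_nt.H12

namespace PR2

theorem big {r : ℝ} (h : 10 ^ 14 ≤ r) : 4 * r ^ 7 ≤ exp (r / 6) := by
  have h0 : 0 ≤ r := le_trans (by norm_num) h
  refine le_trans ?_ (Real.pow_div_factorial_le_exp _ (by positivity) 8)
  have : 0 ≤ r ^ 7 := by positivity
  norm_num [Nat.factorial, div_pow]
  nlinarith [mul_le_mul_of_nonneg_left h this]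

theorem e1 {a : ℝ} (h : 0 ≤ a) : exp a + 1 ≤ exp (a + 1) := by
  have := add_one_le_exp 1
  have := one_le_exp h
  rw [exp_add]
  nlinarith

theorem ce {a : ℝ} (h : 0 ≤ a) : (⌈exp a⌉₊ : ℝ) ≤ exp (a + 1) :=
  (Nat.ceil_lt_add_one (exp_pos a).le).le.trans (e1 h)

theorem sq {X n : ℕ} {a : ℝ} (hX : (0 : ℝ) < X) (h : (n : ℝ) ≤ exp a) (h' : 2 * a ≤ log X) :
    n ≤ X.sqrt := by
  have : (n : ℝ) ^ 2 ≤ X :=
    calc (n : ℝ) ^ 2 ≤ exp a ^ 2 := by gcongr
      _ = exp (2 * a) := by rw [← exp_nat_mul]; norm_num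
      _ ≤ _ := (le_log_iff_exp_le hX).1 h'
  exact Nat.le_sqrt'.2 (by exact_mod_cast this)

theorem ll_ge {n : ℕ} {a : ℝ} (h : exp (exp a) ≤ n) : a ≤ ll n :=
  have h1 := (le_log_iff_exp_le ((exp_pos _).trans_le h)).2 h
  (le_log_iff_exp_le ((exp_pos _).trans_le h1)).2 h1

theorem ll_le {n : ℕ} {a : ℝ} (h3 : 3 ≤ n) (h : (n : ℝ) ≤ exp a) : ll n ≤ log a := by
  have h0 : (3 : ℝ) ≤ n := by exact_mod_cast h3
  exact log_le_log (log_pos (by linarith)) ((log_le_iff_le_exp (by linarith)).2 h)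

theorem two (k : ℕ) : (2 : ℝ) ^ k ≤ exp k := by
  rw [← mul_one (k : ℝ), exp_nat_mul]
  exact pow_le_pow_left₀ zero_le_two (by linarith [add_one_le_exp 1]) k

theorem small {K N r : ℝ} (h1 : 1 ≤ N) (h : N ^ 5 ≤ r) (h' : K ^ 3 ≤ r) (h0 : 0 ≤ K) :
    K * N ^ 2 ≤ r := by
  rcases le_total K N with c | c
  · calc K * N ^ 2 ≤ N * N ^ 2 := by gcongr
      _ = N ^ 3 := by ring
      _ ≤ _ := (pow_le_pow_right₀ h1 (by norm_num)).trans h
  · calc K * N ^ 2 ≤ K * K ^ 2 := by gcongr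
      _ = K ^ 3 := by ring
      _ ≤ _ := h'

theorem last (C N X Y m : ℕ) (r : ℝ) (hE : log X = exp r) (h1 : 4 ≤ r) (hY : exp (r ^ 5) ≤ Y)
    (hm : (m : ℝ) ≤ r ^ 2) (hC : (16 * (2 * C + 4) : ℝ) ^ 3 ≤ r) (hN : 1 ≤ N) (h5 : (N : ℝ) ^ 5 ≤ r) :
    dl C N Y X * exp (C * N * r ^ 4) ≤ 1 ∧ 1 ≤ dl C N Y X * Y ∧
      EE N m m X ≤ exp (20 * N * r ^ 4) := by
  have n1 : (1 : ℝ) ≤ N := by exact_mod_cast hN
  have r0 : 0 ≤ r := by linarith
  have c0 : (0 : ℝ) ≤ C := C.cast_nonneg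
  have y1 : (1 : ℝ) ≤ Y := (one_le_exp (by positivity)).trans hY
  have a : 2 * exp r + 8 ≤ exp (2 * r) := by
    have := add_one_le_exp r
    rw [two_mul r, exp_add]
    nlinarith
  have a2 : (2 * exp r + 8) ^ 2 ≤ exp (4 * r) :=
    (pow_le_pow_left₀ (by positivity) a 2).trans_eq (by rw [← exp_nat_mul]; congr 1; push_cast; ring)
  have p := rpow_pos_of_pos (one_pos.trans_le y1) (1 / (16 * N) : ℝ)
  have r4 : r ≤ r ^ 4 := le_self_pow₀ (by linarith) (by norm_num)
  refine ⟨?_, ?_, ?_⟩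
  · rw [dl, div_mul_eq_mul_div, div_le_one p, hE]
    have s := small n1 h5 hC (by positivity)
    have b : (exp r + 2) ^ 2 ≤ exp (4 * r) :=
      (pow_le_pow_left₀ (by positivity) (by linarith [exp_pos r]) 2).trans a2
    calc _ ≤ exp (C * N ^ 5 : ℕ) * exp (4 * r) * exp (C * N * r ^ 4) := by gcongr; exact two _
      _ ≤ exp (r ^ 5 * (1 / (16 * N))) := by
        rw [← exp_add, ← exp_add, exp_le_exp, mul_one_div, le_div_iff₀ (by positivity)]
        push_cast
        have u : r ≤ N * r ^ 4 := r4.trans (le_mul_of_one_le_left (by positivity) n1)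
        calc _ ≤ (C * (N * r ^ 4) + 4 * (N * r ^ 4) + C * N * r ^ 4) * (16 * N) := by
              gcongr
              exact h5.trans u
          _ = 16 * (2 * C + 4) * N ^ 2 * r ^ 4 := by ring
          _ ≤ r * r ^ 4 := by gcongr
          _ = _ := by ring
      _ ≤ _ := by rw [exp_mul]; gcongr
  · rw [dl, div_mul_eq_mul_div, le_div_iff₀ p, one_mul, hE]
    refine (rpow_le_rpow_of_exponent_le y1 (show _ ≤ 1 by
      rw [div_le_one (by positivity)]; linarith)).trans ?_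
    rw [rpow_one]
    exact le_mul_of_one_le_left (by positivity) (one_le_mul_of_one_le_of_one_le
      (one_le_pow₀ one_le_two) (one_le_pow₀ (by linarith [exp_pos r])))
  · rw [EE, hE]
    calc _ ≤ (exp (4 * r) * exp ((N + 1) * (2 * m + m + 4) : ℕ)) ^ (m + 1) := by gcongr; exact two _
      _ ≤ _ := by
        rw [← exp_add, ← exp_nat_mul, exp_le_exp]
        push_cast
        have r2 : 4 ≤ r ^ 2 := by nlinarith
        have u : 4 * r ≤ 2 * (N * r ^ 2) := by nlinarith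
        calc _ ≤ (r ^ 2 + r ^ 2) * (2 * (N * r ^ 2) + (N + N) * (2 * r ^ 2 + r ^ 2 + r ^ 2)) := by
              gcongr
              linarith
          _ = _ := by ring

end PR2

open PR2 in
theorem rowPR2 : SPR2 := by
  intro C
  have hl : Tendsto ll atTop atTop :=
    tendsto_log_atTop.comp (tendsto_log_atTop.comp tendsto_natCast_atTop_atTop)
  filter_upwards [hl.eventually_ge_atTop (10 ^ 14), hl.eventually_ge_atTop C,
    hl.eventually_ge_atTop ((16 * (2 * C + 4) : ℝ) ^ 3), eventually_gt_atTop 1] with X h1 h2 h3 hX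
  have hX' : (1 : ℝ) < X := by exact_mod_cast hX
  have hE : log X = exp (ll X) := (exp_log (log_pos hX')).symm
  have hb := big h1
  have y1 : exp (ll X ^ 5) ≤ YY X := Nat.le_ceil _
  have z1 : (Z1 X : ℝ) ≤ exp (exp (ll X / 3)) := Nat.floor_le (exp_pos _).le
  have z2 : exp (exp (ll X / 3)) < Z1 X + 1 := Nat.lt_floor_add_one _
  have w1 : exp (exp (ll X / 2)) ≤ Y2 X := Nat.le_ceil _
  have w2 : (Y2 X : ℝ) ≤ exp (exp (ll X / 2) + 1) := ce (exp_pos _).le
  have r0 : 0 ≤ ll X := le_trans (by norm_num) h1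
  have y2 : (YY X : ℝ) ≤ exp (ll X ^ 5 + 1) := ce (by positivity)
  have m1 : (m0 X : ℝ) ≤ ll X ^ 2 := Nat.floor_le (by positivity)
  have z3 : ∀ n : ℕ, (n : ℝ) ≤ exp (exp (ll X / 3)) → n ≤ Z1 X := fun n => Nat.le_floor
  generalize ll X = r at *
  generalize YY X = Y at *
  generalize Z1 X = Z at *
  generalize Y2 X = W at *
  generalize m0 X = m at *
  have r1 : 100 ≤ r := le_trans (by norm_num) h1
  have c0 : (0 : ℝ) ≤ C := C.cast_nonneg
  have pw : ∀ a b : ℕ, a ≤ b → r ^ a ≤ r ^ b := fun a b => pow_le_pow_right₀ (by linarith)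
  have ex : ∀ a b : ℝ, a ≤ b → exp a ≤ exp b := fun a b => exp_le_exp.2
  have r5 : r ≤ r ^ 5 := le_self_pow₀ (by linarith) (by norm_num)
  have f1 : r ^ 5 + 1 ≤ exp (r / 3) := by linarith [pw 5 7 (by norm_num), ex (r / 6) (r / 3) (by linarith)]
  have f2 : r * (r * (1 + exp (r / 3) + r ^ 5)) ≤ exp (r / 2) := by
    rw [show r / 2 = r / 6 + r / 3 by ring, exp_add]
    calc _ ≤ r * (r * (2 * exp (r / 3))) := by gcongr; linarith
      _ = 2 * r ^ 2 * exp (r / 3) := by ring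
      _ ≤ _ := by gcongr; linarith [pw 2 7 (by norm_num), sq_nonneg r]
  have f3 : (2 * Z : ℝ) ^ C * exp (C * r ^ 5) ≤ exp (C * (1 + exp (r / 3) + r ^ 5)) := by
    rw [mul_add, exp_add, exp_nat_mul (1 + _), exp_add]
    gcongr
    linarith [add_one_le_exp 1]
  have y3 : 3 ≤ Y := by
    have : (3 : ℝ) ≤ Y := by linarith [add_one_le_exp (r ^ 5)]
    exact_mod_cast this
  have zw : Z ≤ W := by
    exact_mod_cast z1.trans ((ex _ _ (ex _ _ (by linarith))).trans w1)
  have yz := z3 Y (y2.trans (ex _ _ f1))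
  have x0 : (0 : ℝ) < X := by linarith
  have g0 : 0 ≤ 1 + exp (r / 3) + r ^ 5 := by positivity
  refine ⟨h2, y3, yz, ?_, zw, sq x0 w2 ?_, sq x0 (a := r ^ 2 * (r ^ 5 + 1)) ?_ ?_,
    (le_log_iff_exp_le (by positivity)).2 y1, (log_le_iff_le_exp (by positivity)).2 y2,
    (ll_le y3 y2).trans ?_, ll_ge ?_, (ll_le (by omega) w2).trans ?_, ll_ge ?_, ?_, f3.trans ?_,
    fun N a b => last C N X Y m r hE (by linarith) y1 m1 h3 a b⟩
  · have : (2 * Z : ℝ) ^ C ≤ W := by
      refine (le_mul_of_one_le_right (by positivity) (one_le_exp (by positivity))).trans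
        (f3.trans ((ex _ _ (le_trans ?_ f2)).trans w1))
      exact (mul_le_mul_of_nonneg_right h2 g0).trans
        (le_mul_of_one_le_left (by positivity) (by linarith))
    exact_mod_cast this
  · have := add_one_le_exp (r / 2)
    rw [hE, show exp r = exp (r / 2) * exp (r / 2) by rw [← exp_add, add_halves]]
    nlinarith
  · push_cast
    refine (pow_le_pow_left₀ (by positivity) y2 m).trans ?_
    rw [← exp_nat_mul]
    gcongr
  · have : 2 * (r ^ 2 * (r ^ 5 + 1)) = 2 * r ^ 7 + 2 * r ^ 2 := by ring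
    linarith [pw 2 7 (by norm_num), ex (r / 6) r (by linarith)]
  · refine (log_le_log (by positivity) (show _ ≤ r ^ 6 by nlinarith)).trans_eq ?_
    rw [log_pow]
    norm_num
  · linarith [e1 (exp_pos (r / 4)).le,
      ex _ _ ((e1 (show 0 ≤ r / 4 by linarith)).trans (ex _ (r / 3) (by linarith)))]
  · exact (log_le_iff_le_exp (by positivity)).2
      ((e1 (by linarith)).trans (ex _ _ (by linarith)))
  · refine (Nat.le_ceil _).trans (Nat.cast_le.2 (sq x0 (ce (exp_pos _).le) ?_))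
    have := add_one_le_exp (r - 1)
    have := exp_one_gt_d9
    rw [hE, show exp r = exp (r - 1) * exp 1 by rw [← exp_add, sub_add_cancel]]
    nlinarith
  · have := add_one_le_exp r
    rw [hE, two_mul r, exp_add]
    nlinarith
  · rcases C.eq_zero_or_pos with rfl | c
    · simp
    · have c' : (0 : ℝ) < C := by exact_mod_cast c
      refine le_trans (ex _ (exp (r / 2) * (1 / C)) ?_) ?_
      · rw [mul_one_div, le_div_iff₀ c', mul_comm]
        exact le_trans (by gcongr) f2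
      · rw [exp_mul]
        gcongr

end Pool.Agent.MP_1246c0_nt.H25
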