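import Pool.Agent.MP_1246c0_nt.H25.SpecC

/-! The recursion for the counting function. -/

namespace Pool.Agent.MP_1246c0_nt.H25

open Finset Pool.Agent.MP_1246c0_nt.H12

namespace ZR

variable {A : Type} [Fintype A]

theorem sum_ind (W : Set A) : ∑ w, ind (w ∈ W) = W.ncard := by
  classical
  simp [ind, Set.ncard_eq_toFinset_card']

theorem sum_sg [AddCommGroup A] (h2 : ∀ x : A, x + x = 0) {W : Set A} {Q : A → F2} (h0 : 0 ∈ W)
    (h : ∀ w ∈ W, ∀ w' ∈ W, w + w' ∈ W ∧ Q (w + w') = Q w + Q w') :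
    ind (∀ w ∈ W, Q w = 0) * W.ncard = 1 + ∑ w, ind (w ∈ W ∧ w ≠ 0) * sg (Q w) := by
  classical
  have q0 : Q 0 = 0 := by simpa using (h 0 h0 0 h0).2
  have e : 1 + ∑ w, ind (w ∈ W ∧ w ≠ 0) * sg (Q w) = ∑ w, ind (w ∈ W) * sg (Q w) := by
    rw [← add_sum_erase _ _ (mem_univ (0 : A)), ← add_sum_erase _ _ (mem_univ (0 : A)),
      sum_congr rfl fun w hw => by rw [and_iff_left (ne_of_mem_erase hw)]]
    simp [ind, sg, h0, q0]
  rw [e]
  by_cases hQ : ∀ w ∈ W, Q w = 0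
  · rw [ind, if_pos hQ, one_mul, ← sum_ind]
    refine sum_congr rfl fun w _ => ?_
    by_cases hw : w ∈ W <;> simp [ind, sg, hw, hQ w]
  · rw [ind, if_neg hQ, zero_mul]
    push Not at hQ
    obtain ⟨v, hv, hq⟩ := hQ
    have e1 := Equiv.sum_comp (Equiv.addRight v) fun w => ind (w ∈ W) * sg (Q w)
    rw [sum_congr rfl (g := fun w => -(ind (w ∈ W) * sg (Q w))) fun w _ => ?_, sum_neg_distrib] at e1
    · linarith
    by_cases hw : w ∈ W
    · have h3 : ∀ x y : F2, y ≠ 0 → (x + y = 0 ↔ x ≠ 0) := by decide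
      by_cases h4 : Q w = 0 <;> simp [ind, sg, hw, h w hw v hv, h3 _ _ hq, h4, hq]
    · have h3 : w + v ∉ W := fun h3 => hw (by simpa [add_assoc, h2] using (h _ h3 v hv).1)
      simp [ind, hw, h3]

end ZR

open ZR in
theorem rowZR : OfZR := by
  intro _ hP hC ι _ _ ℓ S μ pr P J i1 hA hL hμ hJ
  have st := hP.step ι ℓ S.Φ μ pr P J
  have gr := fun j => hP.grp ι ℓ S.Φ μ pr P J j i1 hA.one hL hμ
  have pos : ∀ j, 1 ≤ j → j ≤ J → 0 < (Vs S.Φ μ pr P j).ncard := fun j h1 h2 =>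
    (Set.ncard_pos (Set.toFinite _)).2 ⟨_, (gr j h1 h2).1⟩
  have c1 := (hC ι ℓ S μ pr P J i1 hA hL hμ).2
  have le : ∀ j, 1 ≤ j → j ≤ J → 2 ^ ℓ * (Vs S.Φ μ pr P j).ncard ≤ (Ws S.Φ μ pr P i1 j).ncard := by
    intro j h1
    induction j, h1 using Nat.le_induction with
    | base => exact fun _ => c1.ge
    | succ j h1 ih =>
      intro h2
      obtain ⟨-, s1, s2⟩ := st j i1 hA.one hL hμ h1 h2
      refine Nat.le_of_mul_le_mul_right ?_ (pos j h1 (by omega))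
      rw [s2, mul_right_comm]
      exact Nat.mul_le_mul (ih (by omega)) (Set.ncard_le_ncard s1)
  refine ⟨Nat.eq_of_mul_eq_mul_right (pos 1 le_rfl (by omega)) ?_, ?_, fun j h1 h2 => ?_⟩
  · rw [(st 1 i1 hA.one hL hμ le_rfl (by omega)).2.2, c1, mul_right_comm]
  · have mo := fun j h1 h2 (h3 : 2 ≤ j) =>
      (hP.mono ι ℓ S.Φ μ pr P J 1 j i1 hA.one hL hμ le_rfl h1 h2).2.2 h3
    rw [zz, vp, sq, Nat.Ico_succ_singleton, prod_singleton]
    exact Nat.mul_le_mul (Set.ncard_le_ncard fun v hv => mo 3 (by omega) hJ (by omega) hv.1)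
      (Set.ncard_le_ncard (mo 2 (by omega) (by omega) le_rfl))
  · obtain ⟨-, g0, -, g1⟩ := gr j (by omega) (by omega)
    have h3 : (2 : ℝ) ^ ℓ * (Vs S.Φ μ pr P j).ncard ≤ (Ws S.Φ μ pr P i1 j).ncard := by
      exact_mod_cast le j (by omega) (by omega)
    have h4 : ((Vg S.Φ μ pr P (j + 1)).ncard : ℝ) * (Ws S.Φ μ pr P i1 j).ncard ≤
        (Vg S.Φ μ pr P j).ncard + ∑ w : Option ι ⊕ Bool → Vb ℓ, ∑ v : Option ι → Vb ℓ,
          ind (v ∈ Vg S.Φ μ pr P j ∧ w ∈ Ws S.Φ μ pr P i1 j ∧ w ≠ 0) *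
            sg (pg S.Φ μ pr P j w v) := by
      rw [sum_comm, ← sum_ind, ← sum_ind (Vg S.Φ μ pr P j), ← sum_add_distrib, sum_mul]
      refine sum_le_sum fun v _ => ?_
      have h5 : v ∈ Vg S.Φ μ pr P (j + 1) → v ∈ Us S.Φ μ pr P i1 j := fun hv =>
        (st j i1 hA.one hL hμ (by omega) h2).2.1 hv.1
      by_cases hv : v ∈ Vg S.Φ μ pr P j
      · simp only [hv, true_and]
        rw [show ind True = 1 from if_pos trivial, ← sum_sg (Q := fun w => pg S.Φ μ pr P j w v)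
          (fun x => funext fun _ => funext fun _ => CharTwo.add_self_eq_zero _) g0
          fun w hw w' hw' => ⟨(g1 w hw w' hw').1, (g1 w hw w' hw').2 v hv.1⟩]
        refine mul_le_mul_of_nonneg_right ?_ (Nat.cast_nonneg _)
        unfold ind
        split_ifs with k1 k2
        exacts [le_rfl, absurd (h5 k1).2 k2, zero_le_one, le_rfl]
      · have h6 : v ∉ Vg S.Φ μ pr P (j + 1) := fun k => hv ⟨(h5 k).1, k.2⟩
        simp [ind, hv, h6]
    rw [zz, zz, cs, vp, prod_Ico_succ_top h1, ← vp]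
    push_cast
    have h5 := mul_le_mul_of_nonneg_left h4 (Nat.cast_nonneg (α := ℝ) (vp S.Φ μ pr P j))
    have h6 := mul_le_mul_of_nonneg_left h3 (mul_nonneg (Nat.cast_nonneg (α := ℝ) (vp S.Φ μ pr P j))
      (Nat.cast_nonneg (α := ℝ) (Vg S.Φ μ pr P (j + 1)).ncard))
    linarith

end Pool.Agent.MP_1246c0_nt.H25
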