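import Pool.Agent.MP_1246c0_nt.H55.SpecC

/-! Local densities of binary cubic forms at a prime, and products of densities. -/

namespace Pool.Agent.MP_1246c0_nt.H44

open Pool.Agent.MP_1246c0_nt.H55 Finset

theorem dens_mul {M N : ℕ} {P Q : Fm ℤ → Prop} {ρ σ : ℝ} (h : M.Coprime N) (h1 : Dens M P ρ)
    (h2 : Dens N Q σ) : Dens (M * N) (fun f => P f ∧ Q f) (ρ * σ) := by
  classical
  obtain ⟨A, hA, hA'⟩ := h1
  obtain ⟨B, hB, hB'⟩ := h2
  refine ⟨(A ×ˢ B).image fun x i => (ZMod.chineseRemainder h).symm (x.1 i, x.2 i), ?_, ?_⟩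
  · rintro f ⟨hP, hQ⟩
    refine mem_image.2 ⟨(cst (ZMod M) f, cst (ZMod N) f), mem_product.2 ⟨hA f hP, hB f hQ⟩, ?_⟩
    funext i
    rw [RingEquiv.symm_apply_eq]
    simp only [cst, map_intCast]
    rfl
  · have e1 : (((A ×ˢ B).image fun x i =>
        (ZMod.chineseRemainder h).symm (x.1 i, x.2 i)).card : ℝ) ≤ A.card * B.card := by
      rw [← Nat.cast_mul, ← card_product]
      exact_mod_cast card_image_le
    refine e1.trans ((mul_le_mul hA' hB' (Nat.cast_nonneg _)
      ((Nat.cast_nonneg _).trans hA')).trans (le_of_eq ?_))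
    push_cast
    ring

theorem dens_congr {M : ℕ} {P Q : Fm ℤ → Prop} {ρ : ℝ} (h : Dens M P ρ) (hq : ∀ f, Q f → P f) :
    Dens M Q ρ := by
  obtain ⟨A, hA, hA'⟩ := h
  exact ⟨A, fun f hf => hA f (hq f hf), hA'⟩

theorem dens_prod (hL : RowLOCP) (a : ℕ) (P : Fm ℤ → Prop) (ρ : ℝ) (h : Dens (3 ^ a) P ρ)
    (s : Finset ℕ) (hs : ∀ p ∈ s, p.Prime ∧ p ≠ 3) :
    Dens (3 ^ a * ∏ p ∈ s, p ^ 2) (fun f => P f ∧ ∀ p ∈ s, Mx p f)
      (ρ * (∏ p ∈ s, (1 - 1 / (p : ℝ) ^ 2)) ^ 2) := by
  induction s using Finset.induction_on with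
  | empty => simpa using h
  | insert q s hq ih =>
    have hq' := hs q (mem_insert_self _ _)
    have hs' : ∀ p ∈ s, p.Prime ∧ p ≠ 3 := fun p hp => hs p (mem_insert_of_mem hp)
    have hc : (3 ^ a * ∏ p ∈ s, p ^ 2).Coprime (q ^ 2) := by
      refine Nat.Coprime.mul_left (Nat.Coprime.pow _ _ ?_) (Nat.Coprime.prod_left fun p hp => ?_)
      · exact (Nat.coprime_primes Nat.prime_three hq'.1).2 hq'.2.symm
      · refine Nat.Coprime.pow _ _ ((Nat.coprime_primes (hs' p hp).1 hq'.1).2 ?_)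
        rintro rfl
        exact hq hp
    have h2 := dens_mul hc (ih hs') (hL q hq'.1)
    rw [prod_insert hq, prod_insert hq, mul_comm (q ^ 2), ← mul_assoc, mul_pow,
      mul_comm ((1 - 1 / (q : ℝ) ^ 2) ^ 2), ← mul_assoc]
    exact dens_congr h2 fun f hf =>
      ⟨⟨hf.1, fun p hp => hf.2 p (mem_insert_of_mem hp)⟩, hf.2 q (mem_insert_self _ _)⟩

theorem rowDEN (hL : RowLOCP) : RowDEN := by
  intro z a P ρ h
  have hs : ∀ p ∈ Pz z, p.Prime ∧ p ≠ 3 := fun p hp => (mem_filter.1 hp).2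
  refine ⟨_, ?_, dens_prod hL a P ρ h (Pz z) hs⟩
  exact Nat.mul_pos (by positivity) (prod_pos fun p hp => pow_pos (hs p hp).1.pos _)

/-- the move that sends a point of the projective line to infinity -/
def mv {R : Type} [CommRing R] (i : Option ℕ) (f : Fm R) : Fm R :=
  match i with
  | none => f
  | some r => act f r (-1) 1 0

theorem mv_inj {R : Type} [CommRing R] (i : Option ℕ) :
    Function.Injective (mv i : Fm R → Fm R) := by
  cases i with
  | none => exact fun _ _ h => h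
  | some r =>
    intro f g h
    have h2 : act (act f r (-1) 1 0) 0 1 (-1) r = act (act g r (-1) 1 0) 0 1 (-1) r :=
      congrArg (fun x : Fm R => act x 0 1 (-1) (r : R)) h
    simpa [act_act, act_one] using h2

theorem dsc_mv {R : Type} [CommRing R] (i : Option ℕ) (f : Fm R) : dsc (mv i f) = dsc f := by
  cases i with
  | none => rfl
  | some r => simp [mv, dsc_act]

theorem map_mv {R S : Type} [CommRing R] [CommRing S] (φ : R →+* S) (i : Option ℕ) (f : Fm R)
    (j : Fin 4) : φ (mv i f j) = mv i (fun k => φ (f k)) j := by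
  cases i with
  | none => rfl
  | some r => fin_cases j <;> simp [mv, act, ev, map_ofNat]

theorem mv_zero {R : Type} [CommRing R] (i : Option ℕ) (j : Fin 4) :
    mv i (fun _ => (0 : R)) j = 0 := by
  cases i with
  | none => rfl
  | some r => fin_cases j <;> simp [mv, act, ev]

/-- a form over a field with two different double points vanishes -/
theorem two_pts {F : Type} [Field F] (f : Fm F) (i j : Option ℕ)
    (hij : i.map (Nat.cast : ℕ → F) ≠ j.map Nat.cast)
    (h1 : mv i f 0 = 0) (h2 : mv i f 1 = 0) (h3 : mv j f 0 = 0) (h4 : mv j f 1 = 0) :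
    f = fun _ => 0 := by
  have key : ∀ r : ℕ, f 0 = 0 → f 1 = 0 → mv (some r) f 0 = 0 → mv (some r) f 1 = 0 →
      f = fun _ => 0 := by
    intro r a b c d
    simp only [mv, act, ev, Matrix.cons_val_zero, Matrix.cons_val_one, a, b] at c d
    have e2 : f 2 = 0 := by linear_combination -d
    have e3 : f 3 = 0 := by linear_combination c - 3 * (r : F) * e2
    funext k
    fin_cases k <;> simp [a, b, e2, e3]
  cases i with
  | none =>
    cases j with
    | none => simp at hij
    | some s => exact key s h1 h2 h3 h4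
  | some r =>
    cases j with
    | none => exact key r h3 h4 h1 h2
    | some s =>
      have hrs : (r : F) - s ≠ 0 := sub_ne_zero.2 (by simpa using hij)
      have g1 := h1
      have g2 := h2
      simp only [mv, act, ev, Matrix.cons_val_zero, Matrix.cons_val_one] at h1 h2 h3 h4
      have e1 : f 0 * (r + s) + 2 * f 1 = 0 :=
        mul_left_cancel₀ hrs (by linear_combination h4 - h2)
      have e2 : f 1 * (r + s) + 2 * f 2 = 0 :=
        mul_left_cancel₀ hrs (by linear_combination h1 + r * h2 - h3 - s * h4)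
      have e3 : f 0 = 0 :=
        mul_left_cancel₀ (pow_ne_zero 2 hrs)
          (by linear_combination ((r : F) + s - 4 * r) * e1 - 2 * e2 - 4 * h2)
      have e4 : f 2 = 0 := by linear_combination -h2 - r * e1 + r * s * e3
      have e5 : f 1 = 0 :=
        mul_left_cancel₀ hrs
          (by linear_combination e2 - s * e1 + s * (r + s) * e3 - 2 * e4)
      exact key r e3 e5 g1 g2

/-- reduction modulo `p` -/
def red (p : ℕ) : ZMod (p ^ 2) →+* ZMod p := ZMod.castHom (dvd_pow_self p two_ne_zero) (ZMod p)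

theorem card_ker (p : ℕ) [hp : Fact p.Prime] :
    (univ.filter fun x : ZMod (p ^ 2) => red p x = 0).card = p := by
  have h1 := AddSubgroup.card_mul_index (red p).toAddMonoidHom.ker
  have h2 : (red p).toAddMonoidHom.range = ⊤ :=
    AddMonoidHom.range_eq_top.2 (ZMod.castHom_surjective (dvd_pow_self p two_ne_zero))
  rw [AddSubgroup.index_ker, h2, AddSubgroup.card_top, Nat.card_zmod, Nat.card_zmod] at h1
  have h3 : Nat.card (red p).toAddMonoidHom.ker = p :=
    mul_right_cancel₀ hp.out.ne_zero (h1.trans (sq p))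
  refine Eq.trans ?_ h3
  rw [← Fintype.card_subtype, ← Nat.card_eq_fintype_card]
  rfl

/-- the integral forms that reduce into the bad set -/
theorem not_mx (p : ℕ) (g : Fm ℤ) (h1 : (p : ℤ) ∣ g 1)
    (h : (p : ℤ) ^ 2 ∣ g 0 ∨ ((p : ℤ) ∣ g 0 ∧ (p : ℤ) ∣ g 2)) : ¬ Mx p g := by
  intro hm
  apply hm
  obtain ⟨b, hb⟩ := h1
  rcases h with ⟨a, ha⟩ | ⟨⟨a, ha⟩, ⟨c, hc⟩⟩
  · refine ⟨p * a * g 3 - b * g 2, (a * g 2 - b ^ 2) * (g 1 * g 3 - g 2 ^ 2), ?_⟩
    simp only [dsc, ha, hb]
    ring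
  · refine ⟨a * g 3 - p * b * c, (a * c - b ^ 2) * (g 1 * g 3 - g 2 ^ 2), ?_⟩
    simp only [dsc, ha, hb, hc]
    ring

theorem rowLOCP : RowLOCP := by
  classical
  intro p hp
  have := Fact.mk hp
  set m : Finset (ZMod (p ^ 2)) := univ.filter fun x => red p x = 0 with hm
  have hmc : m.card = p := card_ker p
  have hmem : ∀ x, x ∈ m ↔ red p x = 0 := fun x => by simp [hm]
  have hp1 : p ≤ p ^ 2 := Nat.le_self_pow two_ne_zero p
  have hmc' : mᶜ.card = p ^ 2 - p := by rw [card_compl, hmc, ZMod.card]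
  set B0 : Finset (Fm (ZMod (p ^ 2))) := Fintype.piFinset ![m, m, m, m] with hB0
  set B1 : Finset (Fm (ZMod (p ^ 2))) := Fintype.piFinset ![{0}, m, mᶜ, univ] with hB1
  set B2 : Finset (Fm (ZMod (p ^ 2))) := Fintype.piFinset ![m, m, m, mᶜ] with hB2
  have m0 : ∀ g, g ∈ B0 ↔ red p (g 0) = 0 ∧ red p (g 1) = 0 ∧ red p (g 2) = 0 ∧
      red p (g 3) = 0 := fun g => by
    simp [hB0, Fintype.mem_piFinset, Fin.forall_fin_succ, hmem]
  have m1 : ∀ g, g ∈ B1 ↔ g 0 = 0 ∧ red p (g 1) = 0 ∧ red p (g 2) ≠ 0 := fun g => by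
    simp [hB1, Fintype.mem_piFinset, Fin.forall_fin_succ, hmem]
  have m2 : ∀ g, g ∈ B2 ↔ red p (g 0) = 0 ∧ red p (g 1) = 0 ∧ red p (g 2) = 0 ∧
      red p (g 3) ≠ 0 := fun g => by
    simp [hB2, Fintype.mem_piFinset, Fin.forall_fin_succ, hmem]
  have c0 : (B0.card : ℝ) = p ^ 4 := by
    simp [hB0, Fintype.card_piFinset, Fin.prod_univ_four, hmc]; ring
  have c1 : (B1.card : ℝ) = p ^ 5 - p ^ 4 := by
    simp [hB1, Fintype.card_piFinset, Fin.prod_univ_four, hmc, hmc', Nat.cast_sub hp1]; ring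
  have c2 : (B2.card : ℝ) = p ^ 5 - p ^ 4 := by
    simp [hB2, Fintype.card_piFinset, Fin.prod_univ_four, hmc, hmc', Nat.cast_sub hp1]; ring
  have d12 : Disjoint B1 B2 := disjoint_left.2 fun g h1 h2 => ((m1 g).1 h1).2.2 ((m2 g).1 h2).2.2.1
  set T : Option ℕ → Finset (Fm (ZMod (p ^ 2))) :=
    fun i => univ.filter fun f => mv i f ∈ B1 ∪ B2 with hT
  have cT : ∀ i, ((T i).card : ℝ) = 2 * (p ^ 5 - p ^ 4) := by
    intro i
    have hb : Function.Bijective (mv i : Fm (ZMod (p ^ 2)) → _) :=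
      Finite.injective_iff_bijective.1 (mv_inj i)
    have : (T i).card = (B1 ∪ B2).card :=
      card_bijective (mv i) hb fun f => by simp only [hT, mem_filter, mem_univ, true_and]
    rw [this, card_union_of_disjoint d12]
    push_cast
    rw [c1, c2]
    ring
  have hT0 : ∀ i f, f ∈ T i → mv i (fun k => red p (f k)) 0 = 0 ∧
      mv i (fun k => red p (f k)) 1 = 0 ∧ (fun k => red p (f k)) ≠ fun _ => 0 := by
    intro i f hf
    have hz : (fun k => red p (f k)) = (fun _ => 0) → ∀ j, red p (mv i f j) = 0 := fun h j => by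
      rw [map_mv, h, mv_zero]
    simp only [hT, mem_filter, mem_univ, true_and, mem_union, m1, m2] at hf
    rw [← map_mv, ← map_mv]
    rcases hf with ⟨a, b, c⟩ | ⟨a, b, -, d⟩
    · exact ⟨by rw [a, map_zero], b, fun h => c (hz h 2)⟩
    · exact ⟨a, b, fun h => d (hz h 3)⟩
  set I : Finset (Option ℕ) := insertNone (range p) with hI
  have cI : I.card = p + 1 := by rw [hI, card_insertNone, card_range]
  have dT : (I : Set (Option ℕ)).PairwiseDisjoint T := by
    intro i hi j hj hij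
    refine disjoint_left.2 fun f h1 h2 => ?_
    obtain ⟨a, b, c⟩ := hT0 i f h1
    obtain ⟨a', b', -⟩ := hT0 j f h2
    refine c (two_pts _ i j (fun h => hij ?_) a b a' b')
    cases i with
    | none => cases j with
      | none => rfl
      | some s => simp at h
    | some r => cases j with
      | none => simp at h
      | some s =>
        have hr : r < p := by simpa [hI] using hi
        have hs : s < p := by simpa [hI] using hj
        have e : (r : ZMod p) = s := by simpa using h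
        rw [ZMod.natCast_eq_natCast_iff', Nat.mod_eq_of_lt hr, Nat.mod_eq_of_lt hs] at e
        rw [e]
  have dB : Disjoint B0 (I.biUnion T) := by
    refine disjoint_left.2 fun f h1 h2 => ?_
    obtain ⟨i, -, hi⟩ := mem_biUnion.1 h2
    obtain ⟨a, b, c, d⟩ := (m0 f).1 h1
    refine (hT0 i f hi).2.2 (funext fun k => ?_)
    fin_cases k
    exacts [a, b, c, d]
  have cB : ((B0 ∪ I.biUnion T).card : ℝ) = 2 * p ^ 6 - p ^ 4 := by
    rw [card_union_of_disjoint dB, card_biUnion dT]
    push_cast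
    rw [c0, sum_congr rfl fun i _ => cT i, sum_const, cI, nsmul_eq_mul]
    push_cast
    ring
  have hdv : ∀ n : ℤ, red p (n : ZMod (p ^ 2)) = 0 → (p : ℤ) ∣ n := fun n h => by
    rwa [map_intCast, ZMod.intCast_zmod_eq_zero_iff_dvd] at h
  refine ⟨(B0 ∪ I.biUnion T)ᶜ, fun f hf => mem_compl.2 fun hb => ?_, ?_⟩
  · rcases mem_union.1 hb with h | h
    · obtain ⟨a, b, c, -⟩ := (m0 _).1 h
      exact not_mx p f (hdv _ b) (Or.inr ⟨hdv _ a, hdv _ c⟩) hf
    · obtain ⟨i, -, hi⟩ := mem_biUnion.1 h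
      have e : ∀ j, mv i (cst (ZMod (p ^ 2)) f) j = ((mv i f j : ℤ) : ZMod (p ^ 2)) := fun j =>
        (map_mv (Int.castRingHom (ZMod (p ^ 2))) i f j).symm
      have hf' : Mx p (mv i f) := by
        unfold Mx at hf ⊢
        rwa [dsc_mv]
      simp only [hT, mem_filter, mem_univ, true_and, mem_union, m1, m2, e] at hi
      rcases hi with ⟨a, b, -⟩ | ⟨a, b, c, -⟩
      · refine not_mx p _ (hdv _ b) (Or.inl ?_) hf'
        exact_mod_cast (ZMod.intCast_zmod_eq_zero_iff_dvd _ _).1 a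
      · exact not_mx p _ (hdv _ b) (Or.inr ⟨hdv _ a, hdv _ c⟩) hf'
  · have hp0 : (p : ℝ) ≠ 0 := Nat.cast_ne_zero.2 hp.ne_zero
    rw [card_compl, Nat.cast_sub (card_le_univ _), cB, Fintype.card_pi]
    simp only [ZMod.card, prod_const, card_univ, Fintype.card_fin]
    push_cast
    apply le_of_eq
    field_simp
    ring

end Pool.Agent.MP_1246c0_nt.H44
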